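import Mathlib

/-!
# An isometric colouring of the real line with only countable homogeneous sets

Colour a positive real `t` by the sign of its coefficient at the largest element of its support
with respect to a well-ordered Hamel basis of the reals over the rationals.
-/

namespace Pool.Agent.Results.MP_a23160_lc.IsometricColoring

/-- A set of reals each of whose proper initial segments (below a member) is countable,
is countable. -/
theorem countable_of_initial_segments {Z : Set ℝ}
    (h : ∀ x ∈ Z, {x' | x' ∈ Z ∧ x' < x}.Countable) : Z.Countable := by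
  classical
  -- the rationals below some member of `Z`
  have h1 : {x | x ∈ Z ∧ ∃ z ∈ Z, x < z}.Countable := by
    have : {x | x ∈ Z ∧ ∃ z ∈ Z, x < z} ⊆
        ⋃ q : {q : ℚ // ∃ z ∈ Z, (q : ℝ) < z}, {x | x ∈ Z ∧ x < (q.1 : ℝ)} := by
      rintro x ⟨hx, z, hz, hxz⟩
      obtain ⟨q, hq1, hq2⟩ := exists_rat_btwn hxz
      exact Set.mem_iUnion.2 ⟨⟨q, z, hz, hq2⟩, hx, hq1⟩
    refine Set.Countable.mono this (Set.countable_iUnion ?_)
    rintro ⟨q, z, hz, hqz⟩
    refine (h z hz).mono ?_
    rintro x ⟨hx, hxq⟩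
    exact ⟨hx, lt_trans hxq hqz⟩
  have h2 : {x | x ∈ Z ∧ ¬ ∃ z ∈ Z, x < z}.Countable := by
    apply Set.Subsingleton.countable
    rintro x ⟨hx, hx'⟩ y ⟨hy, hy'⟩
    push Not at hx' hy'
    exact le_antisymm (hy' x hx) (hx' y hy)
  refine (h1.union h2).mono ?_
  intro x hx
  by_cases hc : ∃ z ∈ Z, x < z
  · exact Or.inl ⟨hx, hc⟩
  · exact Or.inr ⟨hx, hc⟩

/-- The mirror image of `countable_of_initial_segments`. -/
theorem countable_of_final_segments {Z : Set ℝ}
    (h : ∀ x ∈ Z, {x' | x' ∈ Z ∧ x < x'}.Countable) : Z.Countable := by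
  have : ((fun x : ℝ => -x) '' Z).Countable := by
    apply countable_of_initial_segments
    rintro _ ⟨x, hx, rfl⟩
    refine ((h x hx).image (fun x : ℝ => -x)).mono ?_
    rintro _ ⟨⟨y, hy, rfl⟩, hlt⟩
    exact ⟨y, ⟨hy, by simpa using hlt⟩, rfl⟩
  exact Set.countable_of_injective_of_countable_image (neg_injective.injOn) this

section Core

variable {ι : Type*} [LinearOrder ι]

/-- Positive elements of the lexicographically ordered (largest index first) group of finitely
supported rational functions on `ι`. -/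
def Pos (g : ι →₀ ℚ) : Prop := ∃ i, 0 < g i ∧ ∀ j, i < j → g j = 0

theorem Pos.not_neg {g : ι →₀ ℚ} (h : Pos g) : ¬ Pos (-g) := by
  obtain ⟨i, hi, hi'⟩ := h
  rintro ⟨k, hk, hk'⟩
  rcases lt_trichotomy i k with h | h | h
  · have := hi' k h
    simp [this] at hk
  · subst h
    simp only [Finsupp.coe_neg, Pi.neg_apply] at hk
    linarith
  · have := hk' i h
    simp only [Finsupp.coe_neg, Pi.neg_apply, neg_eq_zero] at this
    linarith

theorem pos_or_neg {g : ι →₀ ℚ} (h : g ≠ 0) : Pos g ∨ Pos (-g) := by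
  have hne : g.support.Nonempty := Finsupp.support_nonempty_iff.2 h
  set i := g.support.max' hne with hi
  have hmem : i ∈ g.support := Finset.max'_mem _ _
  have hmax : ∀ j, i < j → g j = 0 := by
    intro j hj
    by_contra hcon
    have := Finset.le_max' g.support j (Finsupp.mem_support_iff.2 hcon)
    exact absurd (lt_of_lt_of_le hj this) (lt_irrefl _)
  have hgi : g i ≠ 0 := Finsupp.mem_support_iff.1 hmem
  rcases lt_or_gt_of_ne hgi with h | h
  · right
    exact ⟨i, by simpa using h, fun j hj => by simp [hmax j hj]⟩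
  · left
    exact ⟨i, h, hmax⟩

theorem pos_sub {g g' : ι →₀ ℚ} {i i' : ι} (hi : ∀ j, i < j → g j = 0)
    (hi' : ∀ j, i' < j → g' j = 0) (hlt : i < i') (hpos : 0 < g' i') : Pos (g' - g) := by
  refine ⟨i', ?_, ?_⟩
  · simpa [hi i' hlt] using hpos
  · intro j hj
    simp [hi' j hj, hi j (hlt.trans hj)]

end Core

/-- The colour of a real number: `1` if its coordinate vector in the basis `b` is positive. -/
noncomputable def colour {ι : Type*} [LinearOrder ι] (b : Module.Basis ι ℚ ℝ) (t : ℝ) : Fin 2 :=
  open Classical in if Pos (b.repr t) then 1 else 0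

theorem colour_pos {ι : Type*} [LinearOrder ι] (b : Module.Basis ι ℚ ℝ) {t : ℝ}
    (h : Pos (b.repr t)) : colour b t = 1 := by
  simp [colour, h]

theorem colour_neg {ι : Type*} [LinearOrder ι] (b : Module.Basis ι ℚ ℝ) {t : ℝ}
    (h : Pos (b.repr (-t))) : colour b t = 0 := by
  have : ¬ Pos (b.repr t) := by
    intro h'
    apply h'.not_neg
    simpa using h
  simp [colour, this]

theorem core {ι : Type*} [LinearOrder ι] [WellFoundedLT ι] (b : Module.Basis ι ℚ ℝ)
    (X : Set ℝ) (c : Fin 2) (hX : ∀ x ∈ X, ∀ y ∈ X, x ≠ y → colour b |x - y| = c) :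
    X.Countable := by
  classical
  by_contra hunc
  -- minimal level at which some translate meets `X` in an uncountable set
  let P : WithTop ι → Prop := fun α =>
    ∃ y : ℝ, ¬ {x | x ∈ X ∧ ∀ j : ι, α ≤ j → b.repr (x - y) j = 0}.Countable
  have hPtop : P ⊤ := by
    refine ⟨0, fun h => hunc (h.mono ?_)⟩
    intro x hx
    exact ⟨hx, fun j hj => absurd hj (by simp)⟩
  obtain ⟨α, hα, hmin⟩ := WellFounded.has_min (wellFounded_lt (α := WithTop ι)) {α | P α}
    ⟨⊤, hPtop⟩
  obtain ⟨y, hy⟩ := hα
  -- the part of `X` near `y` and supported below `i` is countable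
  have hlow : ∀ i : ι, (i : WithTop ι) < α →
      {x | x ∈ X ∧ ∀ j : ι, i < j → b.repr (x - y) j = 0}.Countable := by
    intro i hi
    have hsub : {x | x ∈ X ∧ ∀ j : ι, i < j → b.repr (x - y) j = 0} ⊆
        ⋃ q : ℚ, {x | x ∈ X ∧ ∀ j : ι, (i : WithTop ι) ≤ j →
          b.repr (x - (y + q • b i)) j = 0} := by
      rintro x ⟨hx, hx'⟩
      refine Set.mem_iUnion.2 ⟨b.repr (x - y) i, hx, ?_⟩
      intro j hj
      have hj' : i ≤ j := by simpa using hj
      have : x - (y + (b.repr (x - y) i) • b i) = (x - y) - (b.repr (x - y) i) • b i := by ring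
      rw [this, map_sub, map_smul, b.repr_self]
      rcases eq_or_lt_of_le hj' with h | h
      · subst h
        simp
      · have := hx' j h
        simp only [Finsupp.coe_sub, Pi.sub_apply, Finsupp.coe_smul, Pi.smul_apply, this]
        simp [h.ne]
    refine (Set.countable_iUnion fun q => ?_).mono hsub
    by_contra hcon
    exact hmin (i : WithTop ι) ⟨_, hcon⟩ hi
  -- split the uncountable piece
  set Y : Set ℝ := {x | x ∈ X ∧ ∀ j : ι, α ≤ j → b.repr (x - y) j = 0} with hYdef
  set Yp : Set ℝ := {x | x ∈ Y ∧ Pos (b.repr (x - y))} with hYp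
  set Yn : Set ℝ := {x | x ∈ Y ∧ Pos (-(b.repr (x - y)))} with hYn
  have hYpX : ∀ x ∈ Yp, x ∈ X := fun x hx => hx.1.1
  have hYnX : ∀ x ∈ Yn, x ∈ X := fun x hx => hx.1.1
  have hcov : Y ⊆ Yp ∪ Yn ∪ {y} := by
    intro x hx
    by_cases hxy : x = y
    · right; exact hxy
    · left
      have hne : b.repr (x - y) ≠ 0 := by
        intro h0
        apply hxy
        have : x - y = 0 := (LinearEquiv.map_eq_zero_iff b.repr).1 h0
        linarith
      rcases pos_or_neg hne with h | h
      · left; exact ⟨hx, h⟩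
      · right; exact ⟨hx, h⟩
  -- comparison of members of `Yp`
  have hcmp : ∀ x x' : ℝ, b.repr (x' - y) - b.repr (x - y) = b.repr (x' - x) := by
    intro x x'
    rw [← map_sub]
    congr 1
    ring
  have hYp_key : ∀ x ∈ Yp, ∃ i : ι, (i : WithTop ι) < α ∧ ∀ x' ∈ Yp,
      (∀ j : ι, i < j → b.repr (x' - y) j = 0) ∨ Pos (b.repr (x' - x)) := by
    rintro x ⟨hx, i, hi, hi'⟩
    refine ⟨i, ?_, ?_⟩
    · by_contra hcon
      have := hx.2 i (not_lt.1 hcon)
      rw [this] at hi
      exact lt_irrefl _ hi
    · rintro x' ⟨hx', k, hk, hk'⟩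
      rcases lt_or_ge i k with h | h
      · right
        rw [← hcmp]
        exact pos_sub hi' hk' h hk
      · left
        intro j hj
        exact hk' j (lt_of_le_of_lt h hj)
  have hYn_key : ∀ x ∈ Yn, ∃ i : ι, (i : WithTop ι) < α ∧ ∀ x' ∈ Yn,
      (∀ j : ι, i < j → b.repr (x' - y) j = 0) ∨ Pos (b.repr (x - x')) := by
    rintro x ⟨hx, i, hi, hi'⟩
    refine ⟨i, ?_, ?_⟩
    · by_contra hcon
      have := hx.2 i (not_lt.1 hcon)
      rw [Finsupp.neg_apply, this] at hi
      simp at hi
    · rintro x' ⟨hx', k, hk, hk'⟩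
      rcases lt_or_ge i k with h | h
      · right
        have h1 := pos_sub hi' hk' h hk
        have h2 : -(b.repr (x' - y)) - -(b.repr (x - y)) = b.repr (x - x') := by
          rw [← hcmp x' x]
          abel
        rwa [h2] at h1
      · left
        intro j hj
        have := hk' j (lt_of_le_of_lt h hj)
        rw [Finsupp.neg_apply, neg_eq_zero] at this
        exact this
  have hYpc : Yp.Countable := by
    have hc : c = 1 ∨ c = 0 := by
      fin_cases c <;> simp
    rcases hc with hc | hc
    · apply countable_of_initial_segments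
      intro x hx
      obtain ⟨i, hiα, hi⟩ := hYp_key x hx
      refine (hlow i hiα).mono ?_
      rintro x' ⟨hx', hlt⟩
      rcases hi x' hx' with h | h
      · exact ⟨hYpX x' hx', h⟩
      · exfalso
        have h1 := hX x (hYpX x hx) x' (hYpX x' hx') hlt.ne'
        rw [abs_of_pos (by linarith), colour_neg b (by simpa using h), hc] at h1
        exact absurd h1 (by decide)
    · apply countable_of_final_segments
      intro x hx
      obtain ⟨i, hiα, hi⟩ := hYp_key x hx
      refine (hlow i hiα).mono ?_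
      rintro x' ⟨hx', hlt⟩
      rcases hi x' hx' with h | h
      · exact ⟨hYpX x' hx', h⟩
      · exfalso
        have h1 := hX x' (hYpX x' hx') x (hYpX x hx) hlt.ne'
        rw [abs_of_pos (by linarith), colour_pos b h, hc] at h1
        exact absurd h1 (by decide)
  have hYnc : Yn.Countable := by
    have hc : c = 1 ∨ c = 0 := by
      fin_cases c <;> simp
    rcases hc with hc | hc
    · apply countable_of_final_segments
      intro x hx
      obtain ⟨i, hiα, hi⟩ := hYn_key x hx
      refine (hlow i hiα).mono ?_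
      rintro x' ⟨hx', hlt⟩
      rcases hi x' hx' with h | h
      · exact ⟨hYnX x' hx', h⟩
      · exfalso
        have h1 := hX x' (hYnX x' hx') x (hYnX x hx) hlt.ne'
        rw [abs_of_pos (by linarith), colour_neg b (by simpa using h), hc] at h1
        exact absurd h1 (by decide)
    · apply countable_of_initial_segments
      intro x hx
      obtain ⟨i, hiα, hi⟩ := hYn_key x hx
      refine (hlow i hiα).mono ?_
      rintro x' ⟨hx', hlt⟩
      rcases hi x' hx' with h | h
      · exact ⟨hYnX x' hx', h⟩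
      · exfalso
        have h1 := hX x (hYnX x hx) x' (hYnX x' hx') hlt.ne'
        rw [abs_of_pos (by linarith), colour_pos b h, hc] at h1
        exact absurd h1 (by decide)
  exact hy (((hYpc.union hYnc).union (Set.countable_singleton y)).mono hcov)

/-- There is an isometric colouring of the two-element subsets of the real line with two colours
all of whose homogeneous sets are countable. -/
theorem result :
    ∃ χ : {e : Sym2 ℝ // ¬ e.IsDiag} → Fin 2,
      (∀ (x y z t : ℝ) (hxy : ¬ s(x, y).IsDiag) (hzt : ¬ s(z, t).IsDiag),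
        dist x y = dist z t → χ ⟨s(x, y), hxy⟩ = χ ⟨s(z, t), hzt⟩) ∧
      ∀ X : Set ℝ,
        (∃ c : Fin 2, ∀ (x y : ℝ) (hxy : ¬ s(x, y).IsDiag), x ∈ X → y ∈ X →
          χ ⟨s(x, y), hxy⟩ = c) →
        X.Countable := by
  classical
  let b := Module.Basis.ofVectorSpace ℚ ℝ
  obtain ⟨_, _⟩ := exists_wellFoundedLT (Module.Basis.ofVectorSpaceIndex ℚ ℝ)
  let f : Sym2 ℝ → Fin 2 := Sym2.lift ⟨fun x y => colour b |x - y|, fun x y => by
    change colour b |x - y| = colour b |y - x|
    rw [abs_sub_comm]⟩
  refine ⟨fun e => f e.1, ?_, ?_⟩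
  · intro x y z t hxy hzt hd
    change colour b |x - y| = colour b |z - t|
    rw [← Real.dist_eq, ← Real.dist_eq, hd]
  · rintro X ⟨c, hc⟩
    refine core b X c ?_
    intro x hx y hy hxy
    exact hc x y (by simpa using hxy) hx hy

end Pool.Agent.Results.MP_a23160_lc.IsometricColoring
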